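import Pool.Agent.N480.UP.Main

/-!
# Closure properties of the projective hierarchy over a sequence of sets covering `E`
-/

set_option autoImplicit false

open Set Function MeasurableSpace MeasureTheory

namespace Pool.Agent.N480.UP

universe u

variable {E : Type u} (A : ℕ → Set E)

section cover

variable (hU : ⋃ n, A n = univ)

include hU in
theorem measurable_pull {m m' : ℕ} (v : Fin m' → Fin m) :
    @Measurable _ _ (Bor A m) (Bor A m') (fun x : Fin m → E => fun i => x (v i)) := by
  refine @measurable_generateFrom _ _ (Bor A m) _ _ ?_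
  rintro _ ⟨n, rfl⟩
  have h : (fun x : Fin m → E => fun i => x (v i)) ⁻¹' {x | ∀ i, x i ∈ A (n i)} =
      ⋂ i, {x | x (v i) ∈ A (n i)} := by
    ext x; simp
  rw [h]
  refine @MeasurableSet.iInter _ _ (Bor A m) _ _ fun i => ?_
  exact measurable_coord A hU (v i) (measurableSet_generateFrom ⟨n i, rfl⟩)

include hU in
/-- preimages under coordinate maps -/
theorem sig_pull (j : ℕ) : ∀ {m m' : ℕ} (v : Fin m' → Fin m) (S : Set (Fin m' → E)),
    S ∈ Sig A j m' → {x : Fin m → E | (fun i => x (v i)) ∈ S} ∈ Sig A j m := by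
  induction j with
  | zero =>
    intro m m' v S hS
    exact measurable_pull A hU v hS
  | succ j ih =>
    rintro m m' v S ⟨T, hT, rfl⟩
    let w : Fin (m' + 1) → Fin (m + 1) :=
      Fin.lastCases (Fin.last m) (fun i => Fin.castSucc (v i))
    refine ⟨_, ih w T hT, ?_⟩
    ext x
    simp only [mem_ofPred_eq]
    rw [mem_proj, mem_proj]
    refine exists_congr fun e => ?_
    have h : (fun i => (Fin.snoc x e : Fin (m + 1) → E) (w i)) =
        (Fin.snoc (fun i => x (v i)) e : Fin (m' + 1) → E) := by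
      funext i
      refine Fin.lastCases ?_ (fun i => ?_) i
      · simp [w]
      · simp [w]
    simp only [mem_compl_iff, mem_ofPred_eq, h]

variable [Nonempty E]

include hU in
theorem sig_compl (j : ℕ) {m : ℕ} (S : Set (Fin m → E)) (hS : S ∈ Sig A j m) :
    Sᶜ ∈ Sig A (j + 1) m := by
  refine ⟨_, sig_pull A hU j Fin.castSucc S hS, ?_⟩
  ext x
  rw [mem_proj]
  simp

include hU in
theorem sig_mono (j : ℕ) : ∀ {m : ℕ} (S : Set (Fin m → E)), S ∈ Sig A j m → S ∈ Sig A (j + 1) m := by
  induction j with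
  | zero =>
    intro m S hS
    have h1 : Sᶜ ∈ Sig A 0 m := @MeasurableSet.compl _ _ (Bor A m) hS
    have h2 := sig_compl A hU 0 _ h1
    rwa [compl_compl] at h2
  | succ j ih =>
    rintro m S ⟨T, hT, rfl⟩
    exact ⟨T, ih T hT, rfl⟩

include hU in
theorem sig_le {j j' : ℕ} (h : j ≤ j') {m : ℕ} (S : Set (Fin m → E)) (hS : S ∈ Sig A j m) :
    S ∈ Sig A j' m := by
  induction j', h using Nat.le_induction with
  | base => exact hS
  | succ n _ ih => exact sig_mono A hU n S ih

include hU in
theorem sig_proj (j : ℕ) {m : ℕ} (S : Set (Fin (m + 1) → E)) (hS : S ∈ Sig A j (m + 1)) :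
    proj S ∈ Sig A (j + 2) m :=
  ⟨Sᶜ, sig_compl A hU j S hS, by rw [compl_compl]⟩

include hU in
/-- a sequence of sets as one set with a parameter -/
theorem sig_param (ν : E → ℕ) (hν : @Measurable _ _ (generateFrom (range A)) _ ν) (j : ℕ) :
    ∀ {m : ℕ} (S : ℕ → Set (Fin m → E)), (∀ n, S n ∈ Sig A j m) →
      {y : Fin (m + 1) → E | (fun i => y (Fin.castSucc i)) ∈ S (ν (y (Fin.last m)))} ∈
        Sig A j (m + 1) := by
  induction j with
  | zero =>
    intro m S hS
    have h : {y : Fin (m + 1) → E | (fun i => y (Fin.castSucc i)) ∈ S (ν (y (Fin.last m)))} =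
        ⋃ n, ({y : Fin (m + 1) → E | (fun i => y (Fin.castSucc i)) ∈ S n} ∩
          {y | ν (y (Fin.last m)) ∈ ({n} : Set ℕ)}) := by
      ext y; simp
    rw [h]
    refine @MeasurableSet.iUnion _ _ (Bor A (m + 1)) _ _ fun n => ?_
    refine @MeasurableSet.inter _ (Bor A (m + 1)) _ _ (sig_pull A hU 0 Fin.castSucc _ (hS n)) ?_
    have h2 : MeasurableSet[generateFrom (range A)] (ν ⁻¹' {n}) := hν (measurableSet_singleton n)
    exact measurable_coord A hU (Fin.last m) h2
  | succ j ih =>
    intro m S hS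
    choose T hT hST using hS
    have h1 := ih T hT
    let w : Fin (m + 2) → Fin (m + 2) :=
      Fin.lastCases (Fin.castSucc (Fin.last m))
        (fun i => Fin.lastCases (Fin.last (m + 1)) (fun i => Fin.castSucc (Fin.castSucc i)) i)
    refine ⟨_, sig_pull A hU j w _ h1, ?_⟩
    ext y
    rw [mem_proj]
    simp only [mem_ofPred_eq, hST, mem_compl_iff]
    rw [mem_proj]
    refine exists_congr fun e => ?_
    have hw1 : (Fin.snoc y e : Fin (m + 2) → E) (w (Fin.last (m + 1))) = y (Fin.last m) := by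
      simp [w]
    have hw2 : (fun i : Fin (m + 1) => (Fin.snoc y e : Fin (m + 2) → E) (w (Fin.castSucc i))) =
        (Fin.snoc (fun i => y (Fin.castSucc i)) e : Fin (m + 1) → E) := by
      funext i
      refine Fin.lastCases ?_ (fun i => ?_) i
      · simp [w]
      · simp [w]
    simp only [hw1, hw2, mem_compl_iff]

include hU in
theorem sig_iUnion (ν : E → ℕ) (hν : @Measurable _ _ (generateFrom (range A)) _ ν)
    (hs : Surjective ν) (j : ℕ) {m : ℕ} (S : ℕ → Set (Fin m → E)) (hS : ∀ n, S n ∈ Sig A j m) :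
    (⋃ n, S n) ∈ Sig A (j + 2) m := by
  have h := sig_proj A hU j _ (sig_param A hU ν hν j S hS)
  have h2 : proj {y : Fin (m + 1) → E | (fun i => y (Fin.castSucc i)) ∈ S (ν (y (Fin.last m)))} =
      ⋃ n, S n := by
    ext x
    rw [mem_proj]
    simp only [mem_ofPred_eq, mem_iUnion, Fin.snoc_castSucc, Fin.snoc_last]
    constructor
    · rintro ⟨e, he⟩; exact ⟨_, he⟩
    · rintro ⟨n, hn⟩
      obtain ⟨e, rfl⟩ := hs n
      exact ⟨e, hn⟩
  rwa [h2] at h

include hU in
theorem sig_iInter (ν : E → ℕ) (hν : @Measurable _ _ (generateFrom (range A)) _ ν)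
    (hs : Surjective ν) (j : ℕ) {m : ℕ} (S : ℕ → Set (Fin m → E)) (hS : ∀ n, S n ∈ Sig A j m) :
    (⋂ n, S n) ∈ Sig A (j + 4) m := by
  have h := sig_compl A hU _ _ (sig_iUnion A hU ν hν hs (j + 1) (fun n => (S n)ᶜ)
    fun n => sig_compl A hU j _ (hS n))
  rwa [compl_iUnion, show (fun i => (S i)ᶜᶜ) = S from funext fun i => compl_compl _] at h

include hU in
theorem sig_union (ν : E → ℕ) (hν : @Measurable _ _ (generateFrom (range A)) _ ν)
    (hs : Surjective ν) (j : ℕ) {m : ℕ} (S T : Set (Fin m → E)) (hS : S ∈ Sig A j m)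
    (hT : T ∈ Sig A j m) : S ∪ T ∈ Sig A (j + 2) m := by
  have h := sig_iUnion A hU ν hν hs j (fun n => if n = 0 then S else T) (fun n => by
    by_cases h : n = 0
    · simpa [h] using hS
    · simpa [h] using hT)
  have h2 : (⋃ n : ℕ, if n = 0 then S else T) = S ∪ T := by
    ext x
    simp only [mem_iUnion, mem_union]
    constructor
    · rintro ⟨n, hn⟩
      by_cases h : n = 0
      · rw [if_pos h] at hn; exact Or.inl hn
      · rw [if_neg h] at hn; exact Or.inr hn
    · rintro (hx | hx)
      · exact ⟨0, by simpa using hx⟩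
      · exact ⟨1, by simpa using hx⟩
  rwa [h2] at h

end cover

end Pool.Agent.N480.UP
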