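import Pool.Agent.N480.UP.Alg

/-!
# The projective sets form a σ-algebra if the hierarchy collapses
-/

set_option autoImplicit false

open Set Function MeasurableSpace MeasureTheory

namespace Pool.Agent.N480.UP

universe u

variable {E : Type u} (A : ℕ → Set E)

/-- the subset of `E^1` given by a subset of `E` -/
def lift (S : Set E) : Set (Fin 1 → E) := {x | x 0 ∈ S}

/-- Projective sets over `{A n}`. -/
def IsProj (S : Set E) : Prop :=
  ∃ j, 1 ≤ j ∧ (lift S ∈ Sig A j 1 ∨ (lift S)ᶜ ∈ Sig A j 1)

/-- the sets in the classes are unions of fibres of the Marczewski function -/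
theorem sig_inv (j : ℕ) : ∀ {m : ℕ} (S : Set (Fin m → E)), S ∈ Sig A j m →
    ∀ x y : Fin m → E, (∀ i, phi A (x i) = phi A (y i)) → x ∈ S → y ∈ S := by
  induction j with
  | zero =>
    intro m S hS x y hxy hx
    obtain ⟨B, -, rfl⟩ := exists_preimage A S hS
    have : (fun i => phi A (y i)) = fun i => phi A (x i) := funext fun i => (hxy i).symm
    simpa [this] using hx
  | succ j ih =>
    rintro m S ⟨T, hT, rfl⟩ x y hxy hx
    rw [mem_proj] at hx ⊢
    obtain ⟨e, he⟩ := hx
    refine ⟨e, fun h => he (ih T hT _ _ ?_ h)⟩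
    intro i
    refine Fin.lastCases ?_ (fun i => ?_) i
    · simp
    · simpa using (hxy i).symm

theorem isProj_inv (S : Set E) (hS : IsProj A S) (x y : E) (hxy : phi A x = phi A y)
    (hx : x ∈ S) : y ∈ S := by
  obtain ⟨j, -, h | h⟩ := hS
  · exact sig_inv A j _ h (fun _ => x) (fun _ => y) (fun _ => hxy) hx
  · by_contra hy
    exact sig_inv A j _ h (fun _ => y) (fun _ => x) (fun _ => hxy.symm) hy hx

theorem exists_nu (hX : (range (phi A)).Infinite) :
    ∃ ν : E → ℕ, @Measurable _ _ (generateFrom (range A)) _ ν ∧ Surjective ν := by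
  classical
  obtain ⟨z, hz⟩ := hX.exists_accPt_principal
  rw [accPt_iff_nhds] at hz
  have hp : ∀ t : ℕ → Bool, ∃ n, t n ≠ z n ∨ t = z := by
    intro t
    by_cases h : t = z
    · exact ⟨0, Or.inr h⟩
    · obtain ⟨n, hn⟩ := Function.ne_iff.1 h
      exact ⟨n, Or.inl hn⟩
  let d : (ℕ → Bool) → ℕ := fun t => Nat.find (hp t)
  have hd : Measurable d := by
    refine measurable_find hp fun n => ?_
    have h1 : MeasurableSet {t : ℕ → Bool | t n ≠ z n} := by
      have h2 : Measurable fun t : ℕ → Bool => t n := measurable_pi_apply n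
      exact (h2 (measurableSet_singleton (z n))).compl
    exact h1.union (measurableSet_singleton z)
  have hinf : (range fun x => d (phi A x)).Infinite := by
    rw [Set.infinite_iff_exists_gt]
    intro N
    have hN : {t : ℕ → Bool | ∀ i ∈ Finset.range (N + 1), t i = z i} ∈ nhds z := by
      have h3 : IsOpen {t : ℕ → Bool | ∀ i ∈ Finset.range (N + 1), t i = z i} := by
        have h4 : {t : ℕ → Bool | ∀ i ∈ Finset.range (N + 1), t i = z i} =
            ⋂ i ∈ Finset.range (N + 1), {t | t i = z i} := by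
          ext t; simp
        rw [h4]
        refine isOpen_biInter_finset fun i _ => ?_
        have h6 : Continuous fun t : ℕ → Bool => t i := continuous_apply i
        exact (isOpen_discrete ({z i} : Set Bool)).preimage h6
      exact h3.mem_nhds (by simp)
    obtain ⟨t, ⟨ht, x, rfl⟩, hne⟩ := hz _ hN
    refine ⟨_, ⟨x, rfl⟩, ?_⟩
    have h5 := Nat.find_spec (hp (phi A x))
    by_contra hcon
    push Not at hcon
    rcases h5 with h5 | h5
    · exact h5 (ht _ (Finset.mem_range.2 (Nat.lt_succ_of_le hcon)))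
    · exact hne h5
  let e := hinf.natEmbedding
  let τ : ℕ → ℕ := Function.invFun (fun n => (e n : ℕ))
  have hτ : ∀ n, τ (e n) = n := by
    intro n
    exact Function.leftInverse_invFun
      (fun a b h => e.injective (Subtype.ext h)) n
  refine ⟨fun x => τ (d (phi A x)),
    (measurable_from_top (f := τ)).comp (hd.comp (measurable_phi A)), ?_⟩
  intro n
  obtain ⟨x, hx⟩ := (e n).2
  exact ⟨x, by simp only [] at hx ⊢; rw [hx, hτ]⟩

section cover

variable (hU : ⋃ n, A n = univ)

/-- if there are only finitely many types of points all unions of fibres are Borel -/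
theorem lift_mem_of_finite (hX : (range (phi A)).Finite) (S : Set E)
    (hS : ∀ x y, phi A x = phi A y → x ∈ S → y ∈ S) (hU : ⋃ n, A n = univ) :
    lift S ∈ Sig A 0 1 := by
  have h1 : (phi A '' S).Finite := hX.subset (image_subset_range _ _)
  have h2 : MeasurableSet (phi A '' S) := h1.measurableSet
  have h3 : MeasurableSet[Bor A 1] {x : Fin 1 → E | phi A (x 0) ∈ phi A '' S} :=
    measurable_coord A hU 0 (measurable_phi A h2)
  have h4 : {x : Fin 1 → E | phi A (x 0) ∈ phi A '' S} = lift S := by
    ext x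
    simp only [lift, mem_ofPred_eq, mem_image]
    constructor
    · rintro ⟨y, hy, h⟩; exact hS y _ h hy
    · intro hx; exact ⟨_, hx, rfl⟩
  rw [h4] at h3
  exact h3

variable [Nonempty E]

include hU in
theorem isProj_iUnion (k : ℕ) (hk : 1 ≤ k) (hb : Collapse A k) (S : ℕ → Set E)
    (hS : ∀ n, IsProj A (S n)) : IsProj A (⋃ n, S n) := by
  by_cases hX : (range (phi A)).Finite
  · refine ⟨1, le_rfl, Or.inl ?_⟩
    refine sig_mono A hU 0 _ (lift_mem_of_finite A hX _ ?_ hU)
    intro x y hxy hx
    obtain ⟨n, hn⟩ := mem_iUnion.1 hx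
    exact mem_iUnion.2 ⟨n, isProj_inv A _ (hS n) x y hxy hn⟩
  · obtain ⟨ν, hν, hs⟩ := exists_nu A hX
    refine ⟨k + 2, by omega, Or.inl ?_⟩
    have h1 : lift (⋃ n, S n) = ⋃ n, lift (S n) := by
      ext x; simp [lift]
    rw [h1]
    refine sig_iUnion A hU ν hν hs k _ fun n => ?_
    obtain ⟨j, hj, h⟩ := hS n
    exact hb j hj _ h

omit [Nonempty E] in
theorem isProj_compl (S : Set E) (hS : IsProj A S) : IsProj A Sᶜ := by
  obtain ⟨j, hj, h⟩ := hS
  refine ⟨j, hj, ?_⟩
  have h1 : lift Sᶜ = (lift S)ᶜ := rfl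
  rw [h1, compl_compl]
  exact h.symm

/-- the σ-algebra of the projective sets -/
def PS (k : ℕ) (hk : 1 ≤ k) (hb : Collapse A k) (hU : ⋃ n, A n = univ) : MeasurableSpace E where
  MeasurableSet' S := IsProj A S
  measurableSet_empty := by
    refine ⟨1, le_rfl, Or.inl ?_⟩
    refine sig_mono A hU 0 _ ?_
    exact @MeasurableSet.empty _ (Bor A 1)
  measurableSet_compl S hS := isProj_compl A S hS
  measurableSet_iUnion S hS := isProj_iUnion A hU k hk hb S hS

end cover

end Pool.Agent.N480.UP
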