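import Pool.Agent.N480.UP.Alg2

/-!
# Collapse of the projective hierarchy: maps with projective coordinate sets
-/

set_option autoImplicit false

open Set Function MeasurableSpace MeasureTheory

namespace Pool.Agent.N480.UP

universe u

variable {E : Type u} (A : ℕ → Set E)

section cover

variable (hU : ⋃ n, A n = univ) [Nonempty E]

omit [Nonempty E] in
theorem isProj_sig (k : ℕ) (hb : Collapse A k) (S : Set E) (hS : IsProj A S) :
    lift S ∈ Sig A k 1 := by
  obtain ⟨j, hj, h⟩ := hS
  exact hb j hj _ h

include hU in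
theorem matrix_mem (k : ℕ) (hk : 1 ≤ k) (hb : Collapse A k) (ν : E → ℕ)
    (hν : @Measurable _ _ (generateFrom (range A)) _ ν) (hs : Surjective ν)
    (f : E → ℕ → Bool) (g : E → ℕ → ℕ)
    (hf : @Measurable _ _ (PS A k hk hb hU) _ f) (hg : @Measurable _ _ (PS A k hk hb hU) _ g)
    (m : ℕ) : {y : Fin (m + 2) → E |
      ((fun i : Fin (m + 1) => phi A (y (Fin.castSucc i))), g (y (Fin.last (m + 1)))) ∈
        clo (m + 1) (f (y 0))} ∈ Sig A (k + 9) (m + 2) := by
  have h : {y : Fin (m + 2) → E |
      ((fun i : Fin (m + 1) => phi A (y (Fin.castSucc i))), g (y (Fin.last (m + 1)))) ∈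
        clo (m + 1) (f (y 0))} =
      ⋂ n, ({y | f (y 0) n = true}ᶜ ∪ {y |
        ((fun i : Fin (m + 1) => phi A (y (Fin.castSucc i))), g (y (Fin.last (m + 1)))) ∈
          bas (m + 1) n}ᶜ) := by
    ext y
    simp only [clo, mem_ofPred_eq, mem_iInter, mem_union, mem_compl_iff]
    refine forall_congr' fun n => ?_
    tauto
  rw [h]
  refine sig_iInter A hU ν hν hs (k + 5) _ fun n => ?_
  refine sig_union A hU ν hν hs (k + 3) _ _ ?_ ?_
  · -- `f (y 0) n = true`
    have h1 : IsProj A {x | f x n = true} := by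
      have h2 : Measurable fun t : ℕ → Bool => t n := measurable_pi_apply n
      exact hf (h2 (measurableSet_singleton true))
    have h3 := sig_pull A hU k (fun _ : Fin 1 => (0 : Fin (m + 2))) _ (isProj_sig A k hb _ h1)
    have h4 := sig_compl A hU k _ h3
    exact sig_le A hU (by omega) _ h4
  · obtain ⟨U, V, hUo, hVo, hUV⟩ := bas_rect (m + 1) n
    have h5 : {y : Fin (m + 2) → E |
        ((fun i : Fin (m + 1) => phi A (y (Fin.castSucc i))), g (y (Fin.last (m + 1)))) ∈
          bas (m + 1) n}ᶜ =
        {y : Fin (m + 2) → E | (fun i : Fin (m + 1) => phi A (y (Fin.castSucc i))) ∈ U}ᶜ ∪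
        {y : Fin (m + 2) → E | (fun i : Fin 1 => y ((fun _ => Fin.last (m + 1)) i)) ∈
          lift (g ⁻¹' V)}ᶜ := by
      ext y
      simp only [hUV, mem_prod, mem_compl_iff, mem_ofPred_eq, mem_union, lift, mem_preimage]
      tauto
    rw [h5]
    refine sig_union A hU ν hν hs (k + 1) _ _ ?_ ?_
    · have h6 : {y : Fin (m + 2) → E |
          (fun i : Fin (m + 1) => phi A (y (Fin.castSucc i))) ∈ U} ∈ Sig A 0 (m + 2) := by
        let _ : MeasurableSpace E := generateFrom (range A)
        let _ : MeasurableSpace (Fin (m + 2) → E) := Bor A (m + 2)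
        have h7 : Measurable fun y : Fin (m + 2) → E =>
            (fun i : Fin (m + 1) => phi A (y (Fin.castSucc i))) := by
          rw [measurable_pi_iff]
          intro i
          exact (measurable_phi A).comp (measurable_coord A hU _)
        exact h7 hUo.measurableSet
      exact sig_le A hU (by omega) _ (sig_compl A hU 0 _ h6)
    · have h8 : IsProj A (g ⁻¹' V) := hg hVo.measurableSet
      have h9 := sig_pull A hU k (fun _ : Fin 1 => Fin.last (m + 1)) _ (isProj_sig A k hb _ h8)
      exact sig_compl A hU k _ h9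

include hU in
theorem diag_mem' (k : ℕ) (hk : 1 ≤ k) (hb : Collapse A k) (ν : E → ℕ)
    (hν : @Measurable _ _ (generateFrom (range A)) _ ν) (hs : Surjective ν)
    (f : E → ℕ → Bool) (g : E → ℕ → ℕ)
    (hf : @Measurable _ _ (PS A k hk hb hU) _ f) (hg : @Measurable _ _ (PS A k hk hb hU) _ g)
    (l : ℕ) : ∀ m : ℕ,
    {x : Fin (m + 1) → E | x ∈ Wr A g (f (x 0)) l (m + 1)} ∈ Sig A (k + 11 + l) (m + 1) := by
  induction l with
  | zero =>
    intro m
    have h1 := sig_proj A hU (k + 9) _ (matrix_mem A hU k hk hb ν hν hs f g hf hg m)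
    have h2 : proj {y : Fin (m + 2) → E |
      ((fun i : Fin (m + 1) => phi A (y (Fin.castSucc i))), g (y (Fin.last (m + 1)))) ∈
        clo (m + 1) (f (y 0))} = {x : Fin (m + 1) → E | x ∈ Wr A g (f (x 0)) 0 (m + 1)} := by
      ext x
      rw [mem_proj]
      simp only [Wr, mem_ofPred_eq]
      refine exists_congr fun e => ?_
      have h0 : (Fin.snoc x e : Fin (m + 2) → E) 0 = x 0 := by
        have := Fin.snoc_castSucc (α := fun _ => E) e x 0
        simpa using this
      rw [h0]
      simp
    rwa [h2] at h1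
  | succ l ih =>
    intro m
    refine ⟨_, ih (m + 1), ?_⟩
    ext x
    rw [mem_proj]
    simp only [Wr, mem_ofPred_eq, mem_compl_iff]
    rw [mem_proj]
    refine exists_congr fun e => ?_
    have h0 : (Fin.snoc x e : Fin (m + 2) → E) 0 = x 0 := by
      have := Fin.snoc_castSucc (α := fun _ => E) e x 0
      simpa using this
    rw [h0]
    simp

include hU in
theorem not_surjective_proj (k : ℕ) (hk : 1 ≤ k) (hb : Collapse A k) (f : E → ℕ → Bool)
    (hf : @Measurable _ _ (PS A k hk hb hU) _ f) : ¬ Surjective f := by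
  intro hs
  have hP := polish_cantor
  -- infinitely many types of points
  have hX : (range (phi A)).Infinite := by
    intro hfin
    have h1 : ∀ x y, phi A x = phi A y → f x = f y := by
      intro x y hxy
      funext n
      have h2 : IsProj A {x | f x n = true} := by
        have h3 : Measurable fun t : ℕ → Bool => t n := measurable_pi_apply n
        exact hf (h3 (measurableSet_singleton true))
      have h4 := isProj_inv A _ h2 x y hxy
      have h5 := isProj_inv A _ h2 y x hxy.symm
      simp only [mem_ofPred_eq] at h4 h5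
      cases hfx : f x n <;> cases hfy : f y n <;> simp_all
    have h6 : (range f).Finite := by
      classical
      choose s hsx using fun t : range (phi A) => t.2
      have h7 : range f ⊆ range fun t : range (phi A) => f (s t) := by
        rintro _ ⟨x, rfl⟩
        exact ⟨⟨phi A x, x, rfl⟩, h1 _ _ (hsx ⟨phi A x, x, rfl⟩)⟩
      have : Finite (range (phi A)) := hfin
      exact (finite_range _).subset h7
    rw [hs.range_eq] at h6
    exact not_countable_cantor (countable_univ_iff.1 h6.countable)
  obtain ⟨ν, hν, hνs⟩ := exists_nu A hX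
  let G : (ℕ → Bool) ≃ᵐ (ℕ → ℕ) :=
    PolishSpace.measurableEquivOfNotCountable not_countable_cantor not_countable_baire
  have hg : @Measurable _ _ (PS A k hk hb hU) _ (fun x => G (f x)) :=
    G.measurable.comp hf
  have hgs : Surjective (fun x => G (f x)) := G.surjective.comp hs
  have h1 := diag_mem' A hU k hk hb ν hν hνs f (fun x => G (f x)) hf hg k 0
  have h2 := hb (k + 11 + k) (by omega)
    ({x : Fin 1 → E | x ∈ Wr A (fun x => G (f x)) (f (x 0)) k 1}ᶜ) (Or.inr (by
      rw [compl_compl]; exact h1))
  obtain ⟨r, hr⟩ := exists_Wr A _ hgs k 1 _ h2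
  obtain ⟨e, he⟩ := hs r
  have h3 : (fun _ : Fin 1 => e) ∈ ({x : Fin 1 → E | x ∈ Wr A (fun x => G (f x)) (f (x 0)) k 1}ᶜ)
      ↔ (fun _ : Fin 1 => e) ∈ Wr A (fun x => G (f x)) r k 1 := by
    rw [hr]
  simp only [mem_compl_iff, mem_ofPred_eq] at h3
  rw [he] at h3
  tauto

include hU in
theorem image_null_proj (k : ℕ) (hk : 1 ≤ k) (hb : Collapse A k) (f : E → ℕ → Bool)
    (hf : @Measurable _ _ (PS A k hk hb hU) _ f) (e : (ℕ → Bool) → (ℕ → Bool))
    (he : Continuous e) (hi : Injective e) :
    ∃ e' : (ℕ → Bool) → (ℕ → Bool), Continuous e' ∧ Injective e' ∧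
      ∀ t, e (e' t) ∉ range f := by
  by_contra hcon
  push Not at hcon
  have hP := polish_cantor
  have hem : MeasurableEmbedding e := he.measurableEmbedding hi
  obtain ⟨ρ, hρ, hρe⟩ := hem.exists_measurable_extend (g := fun t : ℕ → Bool => t) measurable_id
    (fun _ => ⟨fun _ => false⟩)
  have hev : Measurable evens := by
    rw [measurable_pi_iff]
    intro n
    exact measurable_pi_apply (2 * n)
  refine not_surjective_proj A hU k hk hb (fun x => evens (ρ (f x))) (hev.comp (hρ.comp hf)) ?_
  intro r
  obtain ⟨t, x, hx⟩ := hcon (inter r) (inter_continuous r) (inter_injective r)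
  refine ⟨x, ?_⟩
  have h1 : ρ (e (inter r t)) = inter r t := congrFun hρe (inter r t)
  simp only [hx, h1, evens_inter]

end cover

end Pool.Agent.N480.UP
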