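import Mathlib

/-!
# The projective hierarchy over a sequence of sets (MP_1c8600_lc)

We show: if every projective set over `{A n}` is of projective class `k`, then no map from `E` to
the Cantor space which is measurable with respect to the σ-algebra generated by the `A n` is onto.
-/

set_option autoImplicit false

open Set Function MeasurableSpace MeasureTheory

namespace Pool.Agent.N480.UP

universe u

variable {E : Type u} (A : ℕ → Set E)

/-- The σ-algebra on `E^m` generated by the rectangles `A (n 0) × ⋯ × A (n (m - 1))`. -/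
def Bor (m : ℕ) : MeasurableSpace (Fin m → E) :=
  MeasurableSpace.generateFrom {R | ∃ n : Fin m → ℕ, R = {x | ∀ i, x i ∈ A (n i)}}

/-- The projection of `S ⊆ E^(m+1)` to `E^m` (deleting the last coordinate). -/
def proj {m : ℕ} (S : Set (Fin (m + 1) → E)) : Set (Fin m → E) :=
  (fun x i => x (Fin.castSucc i)) '' S

/-- The classes `Σ^(m)_k`, `k ≥ 1`. For `k = 0` these are the Borel sets over `{A n}` in `E^m`;
the sets in `Σ^(m)_(k+1)` are the projections of the complements of the sets in `Σ^(m+1)_k`. -/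
def Sig : ℕ → ∀ m : ℕ, Set (Set (Fin m → E))
  | 0, m => {S | MeasurableSet[Bor A m] S}
  | k + 1, m => {S | ∃ T ∈ Sig k (m + 1), S = proj Tᶜ}

/-- Property (b)_k: every projective set over `{A n}` is of projective class `k`. -/
def Collapse (k : ℕ) : Prop :=
  ∀ j, 1 ≤ j → ∀ S : Set (Fin 1 → E), (S ∈ Sig A j 1 ∨ Sᶜ ∈ Sig A j 1) → S ∈ Sig A k 1

theorem mem_proj {m : ℕ} (S : Set (Fin (m + 1) → E)) (x : Fin m → E) :
    x ∈ proj S ↔ ∃ e : E, (Fin.snoc x e : Fin (m + 1) → E) ∈ S := by
  constructor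
  · rintro ⟨y, hy, rfl⟩
    refine ⟨y (Fin.last m), ?_⟩
    have : (Fin.snoc (fun i => y (Fin.castSucc i)) (y (Fin.last m)) : Fin (m + 1) → E) = y := by
      exact Fin.snoc_init_self y
    rw [this]
    exact hy
  · rintro ⟨e, he⟩
    refine ⟨_, he, ?_⟩
    funext i
    simp

theorem polish_cantor : PolishSpace (ℕ → Bool) := by
  have h0 : TopologicalSpace.IsCompletelyMetrizableSpace Bool := inferInstance
  have h : TopologicalSpace.IsCompletelyMetrizableSpace (ℕ → Bool) :=
    TopologicalSpace.IsCompletelyMetrizableSpace.pi_countable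
  exact inferInstance

theorem not_countable_cantor : ¬ Countable (ℕ → Bool) := by
  have h3 : Cardinal.mk (ℕ → Bool) = Cardinal.continuum := by simp
  intro h
  have h2 : Cardinal.mk (ℕ → Bool) ≤ Cardinal.aleph0 := Cardinal.mk_le_aleph0_iff.2 h
  rw [h3] at h2
  exact absurd h2 (not_le.2 Cardinal.aleph0_lt_continuum)

theorem not_countable_baire : ¬ Countable (ℕ → ℕ) := by
  have h3 : Cardinal.mk (ℕ → ℕ) = Cardinal.continuum := by simp
  intro h
  have h2 : Cardinal.mk (ℕ → ℕ) ≤ Cardinal.aleph0 := Cardinal.mk_le_aleph0_iff.2 h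
  rw [h3] at h2
  exact absurd h2 (not_le.2 Cardinal.aleph0_lt_continuum)

section main

variable (hU : ⋃ n, A n = univ)

include hU in
theorem measurable_coord {m : ℕ} (i : Fin m) :
    @Measurable _ _ (Bor A m) (generateFrom (range A)) (fun y : Fin m → E => y i) := by
  refine @measurable_generateFrom _ _ (Bor A m) _ _ ?_
  rintro _ ⟨n, rfl⟩
  have h : (fun y : Fin m → E => y i) ⁻¹' A n =
      ⋃ n' : {n' : Fin m → ℕ // n' i = n}, {x | ∀ j, x j ∈ A (n'.1 j)} := by
    ext y
    simp only [mem_preimage, mem_iUnion, mem_ofPred_eq, Subtype.exists, exists_prop]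
    constructor
    · intro hy
      have h1 : ∀ j, ∃ l, y j ∈ A l := by
        intro j
        have : y j ∈ ⋃ n, A n := by rw [hU]; trivial
        exact mem_iUnion.1 this
      choose l hl using h1
      refine ⟨Function.update l i n, by simp, ?_⟩
      intro j
      by_cases hj : j = i
      · subst hj; simpa using hy
      · simpa [Function.update_of_ne hj] using hl j
    · rintro ⟨n', h1, h2⟩
      have := h2 i
      rwa [h1] at this
  rw [h]
  refine @MeasurableSet.iUnion _ _ (Bor A m) _ _ ?_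
  intro n'
  exact measurableSet_generateFrom ⟨n'.1, rfl⟩

/-- the Marczewski function -/
noncomputable def phi (x : E) : ℕ → Bool := by
  classical
  exact fun n => decide (x ∈ A n)

theorem measurable_phi : @Measurable _ _ (generateFrom (range A)) _ (phi A) := by
  letI : MeasurableSpace E := generateFrom (range A)
  rw [measurable_pi_iff]
  intro n
  refine measurable_to_bool ?_
  have : (fun x => phi A x n) ⁻¹' {true} = A n := by
    ext x
    simp [phi]
  rw [this]
  exact measurableSet_generateFrom ⟨n, rfl⟩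

/-- Borel sets over `{A n}` are preimages of Borel sets. -/
theorem exists_preimage {m : ℕ} (S : Set (Fin m → E)) (hS : MeasurableSet[Bor A m] S) :
    ∃ B : Set (Fin m → ℕ → Bool), MeasurableSet B ∧ S = {x | (fun i => phi A (x i)) ∈ B} := by
  have h : Bor A m ≤ MeasurableSpace.comap (fun (x : Fin m → E) i => phi A (x i)) inferInstance := by
    refine generateFrom_le ?_
    rintro _ ⟨n, rfl⟩
    refine ⟨{z | ∀ i, z i (n i) = true}, ?_, ?_⟩
    · rw [ofPred_forall]
      refine MeasurableSet.iInter fun i => ?_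
      have h1 : Measurable fun z : Fin m → ℕ → Bool => z i (n i) :=
        (measurable_pi_apply (n i)).comp (measurable_pi_apply i)
      exact h1 (measurableSet_singleton true)
    · ext x
      simp [phi]
  obtain ⟨B, hB, rfl⟩ := h S hS
  exact ⟨B, hB, rfl⟩

/-- The Polish space used for the universal sets. -/
abbrev Wsp (m : ℕ) : Type := (Fin m → ℕ → Bool) × (ℕ → ℕ)

/-- an enumerated basis of rectangles -/
theorem exists_basis (m : ℕ) : ∃ s : ℕ → Set (Wsp m), (∀ n, IsOpen (s n)) ∧
    (∀ (K : Set (Wsp m)), IsOpen K → ∀ w ∈ K, ∃ n, w ∈ s n ∧ s n ⊆ K) ∧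
    ∀ n, ∃ U : Set (Fin m → ℕ → Bool), ∃ V : Set (ℕ → ℕ), IsOpen U ∧ IsOpen V ∧
      s n = U ×ˢ V := by
  obtain ⟨b1, hbc1, -, hb1⟩ := TopologicalSpace.exists_countable_basis (Fin m → ℕ → Bool)
  obtain ⟨b2, hbc2, -, hb2⟩ := TopologicalSpace.exists_countable_basis (ℕ → ℕ)
  have hb := hb1.prod hb2
  have hbc := hbc1.image2 hbc2 (fun U V => U ×ˢ V)
  have hne : (image2 (fun U V => U ×ˢ V) b1 b2).Nonempty := by
    obtain ⟨v, hv, -⟩ := hb.exists_subset_of_mem_open (mem_univ (default : Wsp m)) isOpen_univ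
    exact ⟨v, hv⟩
  obtain ⟨s, hs⟩ := hbc.exists_eq_range hne
  have hmem : ∀ n, s n ∈ image2 (fun U V => U ×ˢ V) b1 b2 := fun n => by rw [hs]; exact ⟨n, rfl⟩
  refine ⟨s, fun n => hb.isOpen (hmem n), ?_, ?_⟩
  · intro K hK w hw
    obtain ⟨v, hv, hwv, hvK⟩ := hb.exists_subset_of_mem_open hw hK
    have hv' : v ∈ image2 (fun U V => U ×ˢ V) b1 b2 := hv
    rw [hs] at hv'
    obtain ⟨n, rfl⟩ := hv'
    exact ⟨n, hwv, hvK⟩
  · intro n
    obtain ⟨U, hU, V, hV, h⟩ := hmem n
    exact ⟨U, V, hb1.isOpen hU, hb2.isOpen hV, h.symm⟩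

/-- an enumerated basis -/
noncomputable def bas (m : ℕ) : ℕ → Set (Wsp m) := (exists_basis m).choose

theorem bas_open (m n : ℕ) : IsOpen (bas m n) := (exists_basis m).choose_spec.1 n

theorem bas_basis (m : ℕ) (K : Set (Wsp m)) (hK : IsOpen K) (w : Wsp m) (hw : w ∈ K) :
    ∃ n, w ∈ bas m n ∧ bas m n ⊆ K := (exists_basis m).choose_spec.2.1 K hK w hw

theorem bas_rect (m n : ℕ) : ∃ U : Set (Fin m → ℕ → Bool), ∃ V : Set (ℕ → ℕ),
    IsOpen U ∧ IsOpen V ∧ bas m n = U ×ˢ V := (exists_basis m).choose_spec.2.2 n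

/-- the closed set with code `r` -/
def clo (m : ℕ) (r : ℕ → Bool) : Set (Wsp m) := {w | ∀ n, r n = true → w ∉ bas m n}

theorem exists_code (m : ℕ) (K : Set (Wsp m)) (hK : IsClosed K) : ∃ r, K = clo m r := by
  classical
  refine ⟨fun n => decide (bas m n ⊆ Kᶜ), ?_⟩
  ext w
  constructor
  · intro hw n hn hwn
    exact (of_decide_eq_true hn) hwn hw
  · intro hw
    by_contra h
    obtain ⟨n, h1, h2⟩ := bas_basis m Kᶜ hK.isOpen_compl w h
    exact hw n (decide_eq_true h2) h1

/-- Borel sets are projections of closed sets. -/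
theorem exists_code_of_measurable (m : ℕ) (B : Set (Fin m → ℕ → Bool)) (hB : MeasurableSet B) :
    ∃ r, ∀ z, z ∈ B ↔ ∃ t : ℕ → ℕ, (z, t) ∈ clo m r := by
  have hP := polish_cantor
  have h := hB.analyticSet
  rw [MeasureTheory.AnalyticSet] at h
  rcases h with rfl | ⟨F, hF, rfl⟩
  · obtain ⟨r, hr⟩ := exists_code m ∅ isClosed_empty
    refine ⟨r, fun z => ?_⟩
    rw [← hr]
    simp
  · obtain ⟨r, hr⟩ := exists_code m {w | F w.2 = w.1}
      (isClosed_eq (hF.comp continuous_snd) continuous_fst)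
    refine ⟨r, fun z => ?_⟩
    rw [← hr]
    simp

/-- the universal sets -/
def Wr (g : E → ℕ → ℕ) (r : ℕ → Bool) : ℕ → ∀ m : ℕ, Set (Fin m → E)
  | 0, m => {x | ∃ e : E, ((fun i => phi A (x i)), g e) ∈ clo m r}
  | k + 1, m => proj (Wr g r k (m + 1))ᶜ

theorem exists_Wr (g : E → ℕ → ℕ) (hg : Surjective g) (k : ℕ) :
    ∀ m (S : Set (Fin m → E)), S ∈ Sig A k m → ∃ r, S = Wr A g r k m := by
  induction k with
  | zero =>
    intro m S hS
    obtain ⟨B, hB, rfl⟩ := exists_preimage A S hS
    obtain ⟨r, hr⟩ := exists_code_of_measurable m B hB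
    refine ⟨r, ?_⟩
    ext x
    simp only [mem_ofPred_eq, Wr]
    rw [hr]
    constructor
    · rintro ⟨t, ht⟩
      obtain ⟨e, rfl⟩ := hg t
      exact ⟨e, ht⟩
    · rintro ⟨e, he⟩
      exact ⟨_, he⟩
  | succ k ih =>
    rintro m S ⟨T, hT, rfl⟩
    obtain ⟨r, hr⟩ := ih (m + 1) T hT
    exact ⟨r, by rw [hr]; rfl⟩

include hU in
theorem measurable_matrix (c : E → ℕ → Bool) (g : E → ℕ → ℕ)
    (hc : @Measurable _ _ (generateFrom (range A)) _ c)
    (hg : @Measurable _ _ (generateFrom (range A)) _ g) (m : ℕ) :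
    MeasurableSet[Bor A (m + 2)] {y : Fin (m + 2) → E |
      ((fun i : Fin (m + 1) => phi A (y (Fin.castSucc i))), g (y (Fin.last (m + 1)))) ∈
        clo (m + 1) (c (y 0))} := by
  letI : MeasurableSpace E := generateFrom (range A)
  letI : MeasurableSpace (Fin (m + 2) → E) := Bor A (m + 2)
  have h : {y : Fin (m + 2) → E |
      ((fun i : Fin (m + 1) => phi A (y (Fin.castSucc i))), g (y (Fin.last (m + 1)))) ∈
        clo (m + 1) (c (y 0))} =
      ⋂ n, ({y | c (y 0) n = true}ᶜ ∪ {y |
        ((fun i : Fin (m + 1) => phi A (y (Fin.castSucc i))), g (y (Fin.last (m + 1)))) ∈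
          bas (m + 1) n}ᶜ) := by
    ext y
    simp only [clo, mem_ofPred_eq, mem_iInter, mem_union, mem_compl_iff]
    refine forall_congr' fun n => ?_
    tauto
  have hco : ∀ i : Fin (m + 2), Measurable (fun y : Fin (m + 2) → E => y i) := fun i =>
    measurable_coord A hU i
  rw [h]
  refine MeasurableSet.iInter fun n => MeasurableSet.union ?_ ?_
  · refine MeasurableSet.compl ?_
    have h1 : Measurable fun y : Fin (m + 2) → E => c (y 0) n :=
      (measurable_pi_apply n).comp (hc.comp (hco 0))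
    exact h1 (measurableSet_singleton true)
  · refine MeasurableSet.compl ?_
    have h1 : Measurable fun y : Fin (m + 2) → E =>
        (((fun i : Fin (m + 1) => phi A (y (Fin.castSucc i))),
          g (y (Fin.last (m + 1)))) : Wsp (m + 1)) := by
      refine Measurable.prodMk ?_ (hg.comp (hco _))
      rw [measurable_pi_iff]
      intro i
      exact (measurable_phi A).comp (hco _)
    exact h1 (bas_open (m + 1) n).measurableSet

include hU in
/-- the diagonal sets are projective -/
theorem diag_mem (c : E → ℕ → Bool) (g : E → ℕ → ℕ)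
    (hc : @Measurable _ _ (generateFrom (range A)) _ c)
    (hg : @Measurable _ _ (generateFrom (range A)) _ g) (k : ℕ) : ∀ m : ℕ,
    {x : Fin (m + 1) → E | x ∈ Wr A g (c (x 0)) k (m + 1)} ∈ Sig A (k + 1) (m + 1) := by
  induction k with
  | zero =>
    intro m
    refine ⟨_, @MeasurableSet.compl _ _ (Bor A (m + 2)) (measurable_matrix A hU c g hc hg m), ?_⟩
    rw [compl_compl]
    ext x
    rw [mem_proj]
    simp only [Wr, mem_ofPred_eq]
    refine exists_congr fun e => ?_
    have h0 : (Fin.snoc x e : Fin (m + 2) → E) 0 = x 0 := by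
      have := Fin.snoc_castSucc (α := fun _ => E) e x 0
      simpa using this
    rw [h0]
    simp
  | succ k ih =>
    intro m
    refine ⟨_, ih (m + 1), ?_⟩
    ext x
    rw [mem_proj]
    simp only [Wr, mem_ofPred_eq, mem_compl_iff]
    rw [mem_proj]
    refine exists_congr fun e => ?_
    have h0 : (Fin.snoc x e : Fin (m + 2) → E) 0 = x 0 := by
      have := Fin.snoc_castSucc (α := fun _ => E) e x 0
      simpa using this
    rw [h0]
    simp

include hU in
theorem not_surjective_of_cover (k : ℕ) (hb : Collapse A k) (f : E → ℕ → Bool)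
    (hf : @Measurable _ _ (generateFrom (range A)) _ f) : ¬ Surjective f := by
  intro hs
  have hP := polish_cantor
  let G : (ℕ → Bool) ≃ᵐ (ℕ → ℕ) :=
    PolishSpace.measurableEquivOfNotCountable not_countable_cantor not_countable_baire
  have hg : @Measurable _ _ (generateFrom (range A)) _ (fun x => G (f x)) :=
    G.measurable.comp hf
  have hgs : Surjective (fun x => G (f x)) := G.surjective.comp hs
  have h1 := diag_mem A hU f (fun x => G (f x)) hf hg k 0
  have h2 := hb (k + 1) (by omega)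
    ({x : Fin 1 → E | x ∈ Wr A (fun x => G (f x)) (f (x 0)) k 1}ᶜ) (Or.inr (by
      rw [compl_compl]; exact h1))
  obtain ⟨r, hr⟩ := exists_Wr A _ hgs k 1 _ h2
  obtain ⟨e, he⟩ := hs r
  have h3 : (fun _ : Fin 1 => e) ∈ ({x : Fin 1 → E | x ∈ Wr A (fun x => G (f x)) (f (x 0)) k 1}ᶜ)
      ↔ (fun _ : Fin 1 => e) ∈ Wr A (fun x => G (f x)) r k 1 := by
    rw [hr]
  simp only [mem_compl_iff, mem_ofPred_eq] at h3
  rw [he] at h3
  tauto

end main

end Pool.Agent.N480.UP
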