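import Pool.Agent.N480.UP.Basic

/-!
# The projective hierarchy over a sequence of sets: sequences which do not cover `E`, and images
-/

set_option autoImplicit false

open Set Function MeasurableSpace MeasureTheory

namespace Pool.Agent.N480.UP

universe u

variable {E : Type u} (A : ℕ → Set E)

/-- the points of `E^m` with a coordinate outside all `A n` -/
def outer (m : ℕ) : Set (Fin m → E) := {x | ∃ i, x i ∉ ⋃ n, A n}

theorem bor_outer {m : ℕ} (S : Set (Fin m → E)) (hS : MeasurableSet[Bor A m] S) :
    outer A m ⊆ S ∨ outer A m ⊆ Sᶜ := by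
  refine generateFrom_induction _ (fun S _ => outer A m ⊆ S ∨ outer A m ⊆ Sᶜ) ?_ ?_ ?_ ?_ S hS
  · rintro _ ⟨n, rfl⟩ _
    refine Or.inr ?_
    rintro x ⟨i, hi⟩ h
    exact hi (mem_iUnion.2 ⟨n i, h i⟩)
  · exact Or.inr (by simp)
  · intro t _ ht
    rw [compl_compl]
    exact ht.symm
  · intro s _ hs
    by_cases h : ∃ n, outer A m ⊆ s n
    · obtain ⟨n, hn⟩ := h
      exact Or.inl (hn.trans (subset_iUnion s n))
    · push Not at h
      refine Or.inr ?_
      intro x hx hx'
      obtain ⟨n, hn⟩ := mem_iUnion.1 hx'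
      rcases hs n with h1 | h1
      · exact h n h1
      · exact h1 hx hn

section degenerate

variable (p : E) (hp : p ∉ ⋃ n, A n)

include hp in
theorem snoc_mem_outer {m : ℕ} (x : Fin m → E) : (Fin.snoc x p : Fin (m + 1) → E) ∈ outer A (m + 1) := by
  refine ⟨Fin.last m, ?_⟩
  rw [Fin.snoc_last]
  exact hp

theorem snoc_mem_outer' {m : ℕ} (x : Fin m → E) (e : E) (hx : x ∈ outer A m) :
    (Fin.snoc x e : Fin (m + 1) → E) ∈ outer A (m + 1) := by
  obtain ⟨i, hi⟩ := hx
  refine ⟨Fin.castSucc i, ?_⟩
  rw [Fin.snoc_castSucc]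
  exact hi

include hp in
theorem sig_one {m : ℕ} (S : Set (Fin m → E)) (hS : S ∈ Sig A 1 m) :
    S = univ ∨ outer A m ⊆ Sᶜ := by
  obtain ⟨T, hT, rfl⟩ := hS
  rcases bor_outer A T hT with h | h
  · refine Or.inr ?_
    intro x hx hx'
    rw [mem_proj] at hx'
    obtain ⟨e, he⟩ := hx'
    exact he (h (snoc_mem_outer' A x e hx))
  · refine Or.inl (eq_univ_of_forall fun x => ?_)
    rw [mem_proj]
    exact ⟨p, h (snoc_mem_outer A p hp x)⟩

include hp in
theorem sig_two (k : ℕ) : ∀ (m : ℕ) (S : Set (Fin m → E)), S ∈ Sig A (k + 2) m →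
    S = univ ∨ S = ∅ := by
  induction k with
  | zero =>
    intro m S hS
    obtain ⟨T, hT, rfl⟩ := hS
    rcases sig_one A p hp T hT with h | h
    · refine Or.inr ?_
      rw [h]
      ext x
      rw [mem_proj]
      simp
    · refine Or.inl (eq_univ_of_forall fun x => ?_)
      rw [mem_proj]
      exact ⟨p, h (snoc_mem_outer A p hp x)⟩
  | succ k ih =>
    intro m S hS
    obtain ⟨T, hT, rfl⟩ := hS
    rcases ih (m + 1) T hT with h | h
    · refine Or.inr ?_
      rw [h]
      ext x
      rw [mem_proj]
      simp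
    · refine Or.inl (eq_univ_of_forall fun x => ?_)
      rw [mem_proj, h]
      exact ⟨p, by simp⟩

include hp in
theorem not_collapse (k : ℕ) (hk : 1 ≤ k) (n : ℕ) (a : E) (ha : a ∈ A n) : ¬ Collapse A k := by
  intro hb
  have h0 : {x : Fin 1 → E | x 0 ∈ A n} ∈ Sig A 1 1 := by
    refine ⟨{x : Fin 2 → E | ∀ i, x i ∈ A n}ᶜ,
      @MeasurableSet.compl _ _ (Bor A 2) (measurableSet_generateFrom ⟨fun _ => n, rfl⟩), ?_⟩
    rw [compl_compl]
    ext x
    rw [mem_proj]
    constructor
    · intro hx
      refine ⟨a, fun i => ?_⟩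
      refine Fin.lastCases ?_ (fun j => ?_) i
      · rw [Fin.snoc_last]; exact ha
      · rw [Fin.snoc_castSucc]
        have : j = 0 := Subsingleton.elim _ _
        rw [this]; exact hx
    · rintro ⟨e, he⟩
      have := he (Fin.castSucc 0)
      rw [Fin.snoc_castSucc] at this
      exact this
  have hpn : p ∉ A n := fun h => hp (mem_iUnion.2 ⟨n, h⟩)
  rcases Nat.lt_or_ge 1 k with h1 | h1
  · obtain ⟨l, rfl⟩ : ∃ l, k = l + 2 := ⟨k - 2, by omega⟩
    rcases sig_two A p hp l 1 _ (hb 1 le_rfl _ (Or.inl h0)) with h | h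
    · have : (fun _ => p : Fin 1 → E) ∈ {x : Fin 1 → E | x 0 ∈ A n} := by rw [h]; trivial
      exact hpn this
    · have : (fun _ => a : Fin 1 → E) ∈ {x : Fin 1 → E | x 0 ∈ A n} := ha
      rw [h] at this
      exact this
  · have hk1 : k = 1 := le_antisymm h1 hk
    subst hk1
    have h2 := hb 1 le_rfl ({x : Fin 1 → E | x 0 ∈ A n}ᶜ) (Or.inr (by rw [compl_compl]; exact h0))
    rcases sig_one A p hp _ h2 with h | h
    · have : (fun _ => a : Fin 1 → E) ∈ ({x : Fin 1 → E | x 0 ∈ A n}ᶜ) := by rw [h]; trivial
      exact this ha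
    · exact h (show (fun _ => p : Fin 1 → E) ∈ outer A 1 from ⟨0, hp⟩) hpn

end degenerate

/-- if the projective hierarchy collapses, the Cantor space is no measurable image of `E` -/
theorem not_surjective (k : ℕ) (hk : 1 ≤ k) (hb : Collapse A k) (f : E → ℕ → Bool)
    (hf : @Measurable _ _ (generateFrom (range A)) _ f) : ¬ Surjective f := by
  by_cases hU : ⋃ n, A n = univ
  · exact not_surjective_of_cover A hU k hb f hf
  obtain ⟨p, hp⟩ : ∃ p, p ∉ ⋃ n, A n := by
    by_contra h
    push Not at h
    exact hU (eq_univ_of_forall h)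
  by_cases hne : ∃ n a, a ∈ A n
  · obtain ⟨n, a, ha⟩ := hne
    exact absurd hb (not_collapse A p hp k hk n a ha)
  · push Not at hne
    intro hs
    have h1 : range A = {∅} := by
      ext S
      constructor
      · rintro ⟨n, rfl⟩
        exact eq_empty_of_forall_notMem (hne n)
      · rintro rfl
        exact ⟨0, eq_empty_of_forall_notMem (hne 0)⟩
    rw [h1, generateFrom_singleton_empty] at hf
    have h2 : MeasurableSet[⊥] {x | f x 0 = true} := by
      have h3 : Measurable fun z : ℕ → Bool => z 0 := measurable_pi_apply 0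
      exact hf (h3 (measurableSet_singleton true))
    rw [measurableSet_bot_iff] at h2
    obtain ⟨x, hx⟩ := hs fun _ => true
    obtain ⟨y, hy⟩ := hs fun _ => false
    rcases h2 with h2 | h2
    · have : x ∈ {x | f x 0 = true} := by simp [hx]
      rw [h2] at this
      exact this
    · have : y ∈ {x | f x 0 = true} := by rw [h2]; trivial
      simp [hy] at this

/-- the even coordinates -/
def evens (t : ℕ → Bool) : ℕ → Bool := fun n => t (2 * n)

/-- the sequence with even coordinates `r` and odd coordinates `s` -/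
def inter (r s : ℕ → Bool) : ℕ → Bool := fun n => if n % 2 = 0 then r (n / 2) else s (n / 2)

theorem evens_inter (r s : ℕ → Bool) : evens (inter r s) = r := by
  funext n
  simp [evens, inter]

theorem inter_continuous (r : ℕ → Bool) : Continuous (inter r) := by
  refine continuous_pi fun n => ?_
  unfold inter
  by_cases h : n % 2 = 0
  · simp only [h, if_true]; exact continuous_const
  · simp only [h, if_false]; exact continuous_apply _

theorem inter_injective (r : ℕ → Bool) : Injective (inter r) := by
  intro s s' h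
  funext n
  have := congrFun h (2 * n + 1)
  have h1 : (2 * n + 1) % 2 ≠ 0 := by omega
  have h2 : (2 * n + 1) / 2 = n := by omega
  simpa [inter, h1, h2] using this

/-- if the projective hierarchy collapses, all measurable images of `E` in the Cantor space are
Marczewski null -/
theorem image_null (k : ℕ) (hk : 1 ≤ k) (hb : Collapse A k) (f : E → ℕ → Bool)
    (hf : @Measurable _ _ (generateFrom (range A)) _ f) (e : (ℕ → Bool) → (ℕ → Bool))
    (he : Continuous e) (hi : Injective e) :
    ∃ e' : (ℕ → Bool) → (ℕ → Bool), Continuous e' ∧ Injective e' ∧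
      ∀ t, e (e' t) ∉ range f := by
  by_contra hcon
  push Not at hcon
  have hP := polish_cantor
  have hem : MeasurableEmbedding e := he.measurableEmbedding hi
  obtain ⟨ρ, hρ, hρe⟩ := hem.exists_measurable_extend (g := fun t : ℕ → Bool => t) measurable_id
    (fun _ => ⟨fun _ => false⟩)
  have hev : Measurable evens := by
    rw [measurable_pi_iff]
    intro n
    exact measurable_pi_apply (2 * n)
  refine not_surjective A k hk hb (fun x => evens (ρ (f x))) (hev.comp (hρ.comp hf)) ?_
  intro r
  obtain ⟨t, x, hx⟩ := hcon (inter r) (inter_continuous r) (inter_injective r)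
  refine ⟨x, ?_⟩
  have h1 : ρ (e (inter r t)) = inter r t := congrFun hρe (inter r t)
  simp only [hx, h1, evens_inter]

end Pool.Agent.N480.UP
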